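import Pool.Agent.Q298.Gold.Final

/-!
# Entropy-equal finitary i.i.d. codings of Markov chains: the answer is no

`result`: there is a two-state stationary ergodic Markov chain with exponential return times (the
chain of maximal entropy of the golden mean shift) such that no i.i.d. process with the same entropy
has a finitary factor map onto it whose coding window has exponential tails.

The definitions (`shannon`, `entropyRate`, `sh`, `stepN`, `IsErgodicMarkovChain`,
`ExpReturnTimes`, `Determined`, `IsExpFinitaryFactor`) are in `Pool.Agent.Q298.Gold.Defs`.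
-/

set_option autoImplicit false

open MeasureTheory Set
open scoped ENNReal

namespace Pool.Agent.Results.MP_207c40_pr.NoEntropyEqualCoding

open Pool.Agent.Q298.Gold

universe u

theorem result : ∃ (p : Bool → Bool → ℝ≥0∞) (μ : Measure (ℤ → Bool)),
    IsErgodicMarkovChain p μ ∧ ExpReturnTimes μ ∧
    ∀ (A : Type u) [MeasurableSpace A] [StandardBorelSpace A] (ν : Measure A)
      [IsProbabilityMeasure ν], shannon ν = entropyRate μ →
      ¬ ∃ φ : (ℤ → A) → (ℤ → Bool), IsExpFinitaryFactor ν μ φ :=
  ⟨gp, gm, gm_ergodic, gm_return, fun A _ _ ν _ h => no_factor A ν h⟩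

end Pool.Agent.Results.MP_207c40_pr.NoEntropyEqualCoding
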